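import Pool.Agent.X157.W.Few
import Pool.Agent.TH167.SH.Fam
import Pool.Agent.TH167.SH.Conv

set_option autoImplicit false

/-!
# Negative curves and at most eight of the points

Let `P 1, …, P s` be very general points of the complex projective plane, let `C` be an irreducible
curve with `C ^ 2 = - k < 0` of class `d H - ∑ w i E i` which is not a `(-1)`-curve, and let `S` be
a set of `m` of the points, `3 ≤ m ≤ 8`. Then `d = 3 w i` for all `i` in `S`, or

`(3 d - ∑_S w i) ^ 2 ≥ (9 - m) * ∑_{i ∉ S} w i ^ 2 + ε * k`,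

where `ε = -3, -1, 0, 1, 1, 1` for `m = 3, …, 8`. The Hodge index theorem on the del Pezzo surface
of degree `9 - m` gives this with `ε = m - 9`.

On the blow-up at the points of `S` the class of `C` is moved by the finite Weyl group to the
fundamental chamber, all images being classes of irreducible curves on the same blow-up at all the
points; the numbers `C α` for the simple roots `α` are zero or at least `√k`, and the defect in the
Hodge index theorem is a combination of their products with nonnegative coefficients.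
-/

namespace Pool.Agent.Results.MP_309968_ag.EightPoints

open MvPolynomial Pool.Agent.TH167 Pool.Agent.TH167.SHDefs Pool.Agent.X157.W

theorem result (s : ℕ) :
    ∃ Z : ℕ → MvPolynomial (Fin s × Fin 2) ℂ, (∀ n, Z n ≠ 0) ∧
      ∀ P : Fin s → Fin 2 → ℂ,
        (∀ n, MvPolynomial.eval (fun ij : Fin s × Fin 2 => P ij.1 ij.2) (Z n) ≠ 0) →
        ∀ (d : ℕ) (w : Fin s → ℕ) (C : MvPolynomial (Fin 3) ℂ), Curve P C d w →
          ¬ MinusOne P C d w → inter d w d w < 0 →
          ∀ S : Finset (Fin s), 3 ≤ S.card → S.card ≤ 8 →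
            (∀ i ∈ S, (d : ℤ) = 3 * w i) ∨
            (9 - S.card) * ∑ i ∈ Sᶜ, (w i : ℤ) ^ 2 +
                (if S.card = 3 then -3 else if S.card = 4 then -1 else
                  if S.card = 5 then 0 else 1) * (-inter d w d w) ≤
              (3 * d - ∑ i ∈ S, (w i : ℤ)) ^ 2 := by
  classical
  obtain ⟨Z, hZ, h⟩ := SH.exists_fam (Fin s × Fin 2)
  refine ⟨Z, hZ, fun P hP0 d w C hC hne hneg S hS3 hS8 => ?_⟩
  have hP : Gen P := (h _).1 hP0
  have hIc : Ic P d w := ⟨C, SH.curve_iff.1 hC⟩
  have hne' : NotExc d w := by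
    rintro ⟨h1, h2⟩
    apply hne
    refine ⟨hC, ?_, ?_⟩
    · rw [SH.inter_eq]
      exact h1
    · rw [SH.interK_eq, h2]
  rw [SH.inter_eq] at hneg ⊢
  rcases few hP hS3 hS8 d w hIc hne' hneg with h1 | h1
  · exact Or.inl h1
  · right
    refine le_trans (le_of_eq ?_) h1
    obtain ⟨m, hm⟩ : ∃ m, m = S.card := ⟨_, rfl⟩
    rw [← hm] at hS3 hS8 ⊢
    unfold cst
    interval_cases m <;> norm_num <;> ring

end Pool.Agent.Results.MP_309968_ag.EightPoints
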