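import Pool.Agent.X157.W.Pair
import Pool.Agent.TH167.SH.Fam
import Pool.Agent.TH167.SH.Conv

set_option autoImplicit false

/-!
# Irreducible curves and `(-1)`-curves on very general blow-ups of the plane

Let `s ≥ 4` points of the complex projective plane be very general, let `C` be an irreducible curve
on the blow-up which is not a `(-1)`-curve, and let `E` be any `(-1)`-curve. Then `C E = 0`, or
`C ^ 2 + C E ≥ 0`. If `C ^ 2 < 0`, then `C E = 0`, or `C E ≥ 4`, or `C E = 1` and `C ^ 2 = -1`.

For the exceptional curves `E i` over the points, where `C E i` is the multiplicity of `C`, the first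
part is the inequality of Xu and Ein-Lazarsfeld, and the second one is a starting result.
The reflections of the Weyl group carry `C` and `E` to an irreducible curve `C'` at the same points
and to one of the `E i`: the classes of the irreducible curves which are not `(-1)`-curves are
permuted by the Weyl group, as an automorphism of the complex numbers carries the points of a
quadratic transformation back to the given points.
-/

namespace Pool.Agent.Results.MP_309968_ag.MinusOnePairings

open MvPolynomial Pool.Agent.TH167 Pool.Agent.TH167.SHDefs Pool.Agent.X157.W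

theorem result (r : ℕ) :
    ∃ Z : ℕ → MvPolynomial (Fin (r + 4) × Fin 2) ℂ, (∀ n, Z n ≠ 0) ∧
      ∀ P : Fin (r + 4) → Fin 2 → ℂ,
        (∀ n, MvPolynomial.eval (fun ij : Fin (r + 4) × Fin 2 => P ij.1 ij.2) (Z n) ≠ 0) →
        ∀ (d : ℕ) (w : Fin (r + 4) → ℕ) (C : MvPolynomial (Fin 3) ℂ), Curve P C d w →
          ¬ MinusOne P C d w →
          ∀ (e : ℕ) (u : Fin (r + 4) → ℕ) (E : MvPolynomial (Fin 3) ℂ), MinusOne P E e u →
            (inter d w e u = 0 ∨ 0 ≤ inter d w d w + inter d w e u) ∧
            (inter d w d w < 0 → inter d w e u = 0 ∨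
              (inter d w e u = 1 ∧ inter d w d w = -1) ∨ 4 ≤ inter d w e u) := by
  classical
  obtain ⟨Z, hZ, h⟩ := SH.exists_fam (Fin (r + 4) × Fin 2)
  refine ⟨Z, hZ, fun P hP0 d w C hC hne e u E hE => ?_⟩
  have hP : Gen P := (h _).1 hP0
  have hIc : Ic P d w := ⟨C, SH.curve_iff.1 hC⟩
  have hne' : NotExc d w := by
    rintro ⟨h1, h2⟩
    apply hne
    refine ⟨hC, ?_, ?_⟩
    · rw [SH.inter_eq]
      exact h1
    · rw [SH.interK_eq, h2]
  obtain ⟨g1, g2, g3⟩ := hE
  have hE' : Ic P e u := ⟨E, SH.curve_iff.1 g1⟩
  rw [SH.inter_eq] at g2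
  rw [SH.interK_eq] at g3
  rw [SH.inter_eq, SH.inter_eq]
  exact ⟨pair_xu hP hE' g2 (by omega) hIc hne', pair_neg hP hE' g2 (by omega) hIc hne'⟩

end Pool.Agent.Results.MP_309968_ag.MinusOnePairings
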