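import Pool.Agent.X157.W.Nine
import Pool.Agent.TH167.SH.Fam
import Pool.Agent.TH167.SH.Conv

set_option autoImplicit false

/-!
# Negative curves and nine of the points

Let `P 1, …, P s` be very general points of the complex projective plane, let `C` be an irreducible
curve with `C ^ 2 = - k < 0` of class `d H - ∑ w i E i`, and let `S` be any nine of the points, `F`
the class of the cubic through them, and `f = C F = 3 d - ∑_S w i`. Then one of the following holds:

* `f = 0`, and `d = 3 w i` for all `i` in `S`;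
* `f ^ 2 ≥ 4 k`;
* `k ≤ f ^ 2 < 4 k`, and `f` divides all differences `w i - w j` and all numbers
  `d - w i - w j - w l` for different `i, j, l` in `S`.

The classes `α + m F`, where `α = E j - E i` or `H - E i - E j - E l`, are real roots of the Weyl
group for all integers `m`, so that the arithmetic progression of the numbers `C α + m f` avoids
all numbers of absolute value less than `√k`, except zero. If `f = 0`, the images of `C` under the
reflections in `α` and `α + F` are irreducible curves with intersection number `C ^ 2 < 0`, hence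
equal, so that `C α = 0`.
-/

namespace Pool.Agent.Results.MP_309968_ag.NinePoints

open MvPolynomial Pool.Agent.TH167 Pool.Agent.TH167.SHDefs Pool.Agent.X157.W

theorem enum3 {s : ℕ} {S : Finset (Fin s)} (hS : S.card = 9) {i j l : Fin s} (hi : i ∈ S)
    (hj : j ∈ S) (hl : l ∈ S) (hij : i ≠ j) (hil : i ≠ l) (hjl : j ≠ l) :
    ∃ σ : Fin 9 → Fin s, Function.Injective σ ∧ σ 0 = i ∧ σ 1 = j ∧ σ 2 = l ∧
      ∀ g : Fin s → ℤ, ∑ t, g (σ t) = ∑ x ∈ S, g x := by
  classical
  have m2 : j ∈ S.erase i := Finset.mem_erase.2 ⟨hij.symm, hj⟩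
  have m3 : l ∈ (S.erase i).erase j :=
    Finset.mem_erase.2 ⟨hjl.symm, Finset.mem_erase.2 ⟨hil.symm, hl⟩⟩
  obtain ⟨T, hT⟩ : ∃ T, T = ((S.erase i).erase j).erase l := ⟨_, rfl⟩
  have hTc : T.card = 6 := by
    rw [hT, Finset.card_erase_of_mem m3, Finset.card_erase_of_mem m2,
      Finset.card_erase_of_mem hi, hS]
  have hTm : ∀ x ∈ T, x ≠ i ∧ x ≠ j ∧ x ≠ l := by
    intro x hx
    rw [hT, Finset.mem_erase, Finset.mem_erase, Finset.mem_erase] at hx
    exact ⟨hx.2.2.1, hx.2.1, hx.1⟩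
  let e : Fin 6 ≃ T := (finCongr hTc.symm).trans T.equivFin.symm
  obtain ⟨τ, hτ⟩ : ∃ τ : Fin 6 → Fin s, τ = fun t => (e t : Fin s) := ⟨_, rfl⟩
  have hτi : Function.Injective τ := by
    rw [hτ]
    exact fun a b h => e.injective (Subtype.ext h)
  have hτT : ∀ t, τ t ∈ T := fun t => by
    rw [hτ]
    exact (e t).2
  refine ⟨(Fin.cons i (Fin.cons j (Fin.cons l τ : Fin 7 → Fin s) : Fin 8 → Fin s) :
    Fin 9 → Fin s), ?_, rfl, rfl, rfl, ?_⟩
  · rw [Fin.cons_injective_iff, Fin.cons_injective_iff, Fin.cons_injective_iff]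
    refine ⟨?_, ?_, ?_, hτi⟩
    · rintro ⟨t, ht⟩
      refine Fin.cases (fun h => ?_) (fun t h => ?_) t ht
      · exact hij h.symm
      · rw [Fin.cons_succ] at h
        refine Fin.cases (fun h => ?_) (fun t h => ?_) t h
        · exact hil h.symm
        · rw [Fin.cons_succ] at h
          exact (hTm _ (hτT t)).1 h
    · rintro ⟨t, ht⟩
      refine Fin.cases (fun h => ?_) (fun t h => ?_) t ht
      · exact hjl h.symm
      · rw [Fin.cons_succ] at h
        exact (hTm _ (hτT t)).2.1 h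
    · rintro ⟨t, ht⟩
      exact (hTm _ (hτT t)).2.2 ht
  · intro g
    rw [Fin.sum_univ_succ, Fin.sum_univ_succ, Fin.sum_univ_succ]
    simp only [Fin.cons_zero, Fin.cons_succ]
    rw [← Finset.add_sum_erase S g hi, ← Finset.add_sum_erase _ g m2,
      ← Finset.add_sum_erase _ g m3, ← hT]
    have h1 : ∑ t, g (τ t) = ∑ x ∈ T, g x := by
      rw [← Finset.sum_coe_sort T, ← Equiv.sum_comp e]
      rw [hτ]
    rw [h1]

theorem result (s : ℕ) :
    ∃ Z : ℕ → MvPolynomial (Fin s × Fin 2) ℂ, (∀ n, Z n ≠ 0) ∧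
      ∀ P : Fin s → Fin 2 → ℂ,
        (∀ n, MvPolynomial.eval (fun ij : Fin s × Fin 2 => P ij.1 ij.2) (Z n) ≠ 0) →
        ∀ (d : ℕ) (w : Fin s → ℕ) (C : MvPolynomial (Fin 3) ℂ), Curve P C d w →
          inter d w d w < 0 →
          ∀ (S : Finset (Fin s)) (f : ℤ), S.card = 9 → f = 3 * d - ∑ i ∈ S, (w i : ℤ) →
            (f = 0 ∧ ∀ i ∈ S, (d : ℤ) = 3 * w i) ∨
            -4 * inter d w d w ≤ f ^ 2 ∨
            (-inter d w d w ≤ f ^ 2 ∧ (∀ i ∈ S, ∀ j ∈ S, f ∣ (w i : ℤ) - w j) ∧
              ∀ i ∈ S, ∀ j ∈ S, ∀ l ∈ S, i ≠ j → i ≠ l → j ≠ l →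
                f ∣ (d : ℤ) - w i - w j - w l) := by
  classical
  obtain ⟨Z, hZ, h⟩ := SH.exists_fam (Fin s × Fin 2)
  refine ⟨Z, hZ, fun P hP0 d w C hC hneg S f hS hf => ?_⟩
  have hP : Gen P := (h _).1 hP0
  have hIc : Ic P d w := ⟨C, SH.curve_iff.1 hC⟩
  rw [SH.inter_eq] at hneg ⊢
  by_cases hne : NotExc d w
  · have hpts : ∀ i ∈ S, ∀ j ∈ S, i ≠ j → (f = 0 ∧ (w j : ℤ) - w i = 0) ∨
        (f ≠ 0 ∧ -SH.ip d w d w ≤ f ^ 2 ∧
          (-4 * SH.ip d w d w ≤ f ^ 2 ∨ f ∣ (w j : ℤ) - w i)) := by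
      intro i hi j hj hij
      obtain ⟨l, hl⟩ : ∃ l, l ∈ (S.erase i).erase j := by
        apply Finset.card_pos.1
        rw [Finset.card_erase_of_mem (Finset.mem_erase.2 ⟨hij.symm, hj⟩),
          Finset.card_erase_of_mem hi, hS]
        norm_num
      rw [Finset.mem_erase, Finset.mem_erase] at hl
      obtain ⟨σ, hσ, h0, h1, h2, hsum⟩ := enum3 hS hi hj hl.2.2 hij hl.2.1.symm hl.1.symm
      refine nine hP hIc hne hneg hσ (a := 0)
        (v := fun l => (if l = 0 then 1 else 0) - (if l = 1 then 1 else 0)) (by decide)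
        (by decide) (fun m => by rw [zero_add]; exact aff_pts m) ?_ ?_
      · have e1 : ∑ t : Fin 9, ((if t = 0 then (1 : ℤ) else 0) - (if t = 1 then 1 else 0)) *
            (w (σ t) : ℤ) = (w (σ 0) : ℤ) - w (σ 1) := by
          simp only [sub_mul, ite_mul, one_mul, zero_mul, Finset.sum_sub_distrib,
            Finset.sum_ite_eq', Finset.mem_univ, if_true]
        rw [e1, h0, h1]
        ring
      · rw [hf, hsum fun x => (w x : ℤ)]
    have htri : ∀ i ∈ S, ∀ j ∈ S, ∀ l ∈ S, i ≠ j → i ≠ l → j ≠ l →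
        (f = 0 ∧ (d : ℤ) - w i - w j - w l = 0) ∨
        (f ≠ 0 ∧ -SH.ip d w d w ≤ f ^ 2 ∧
          (-4 * SH.ip d w d w ≤ f ^ 2 ∨ f ∣ (d : ℤ) - w i - w j - w l)) := by
      intro i hi j hj l hl hij hil hjl
      obtain ⟨σ, hσ, h0, h1, h2, hsum⟩ := enum3 hS hi hj hl hij hil hjl
      refine nine hP hIc hne hneg hσ (a := 1)
        (v := fun l => if l = 0 ∨ l = 1 ∨ l = 2 then 1 else 0) (by decide)
        (by decide) aff_line ?_ ?_
      · have e1 : ∑ t : Fin 9, (if t = 0 ∨ t = 1 ∨ t = 2 then (1 : ℤ) else 0) *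
            (w (σ t) : ℤ) = (w (σ 0) : ℤ) + w (σ 1) + w (σ 2) :=
          sum_tri (i := (0 : Fin 9)) (j := 1) (k := 2) (by decide) (by decide) (by decide)
            (fun t => (w (σ t) : ℤ))
        rw [e1, h0, h1, h2]
        ring
      · rw [hf, hsum fun x => (w x : ℤ)]
    by_cases hf0 : f = 0
    · left
      refine ⟨hf0, fun i hi => ?_⟩
      obtain ⟨j, hj⟩ : ∃ j, j ∈ S.erase i := by
        apply Finset.card_pos.1
        rw [Finset.card_erase_of_mem hi, hS]
        norm_num
      obtain ⟨l, hl⟩ : ∃ l, l ∈ (S.erase i).erase j := by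
        apply Finset.card_pos.1
        rw [Finset.card_erase_of_mem hj, Finset.card_erase_of_mem hi, hS]
        norm_num
      rw [Finset.mem_erase] at hj
      rw [Finset.mem_erase, Finset.mem_erase] at hl
      have h1 := hpts i hi j hj.2 hj.1.symm
      have h2 := hpts i hi l hl.2.2 hl.2.1.symm
      have h3 := htri i hi j hj.2 l hl.2.2 hj.1.symm hl.2.1.symm hl.1.symm
      rcases h1 with ⟨-, h1⟩ | ⟨h1, -⟩
      · rcases h2 with ⟨-, h2⟩ | ⟨h2, -⟩
        · rcases h3 with ⟨-, h3⟩ | ⟨h3, -⟩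
          · linarith
          · exact absurd hf0 h3
        · exact absurd hf0 h2
      · exact absurd hf0 h1
    · right
      by_cases h4 : -4 * SH.ip d w d w ≤ f ^ 2
      · exact Or.inl h4
      · right
        refine ⟨?_, fun i hi j hj => ?_, fun i hi j hj l hl hij hil hjl => ?_⟩
        · obtain ⟨i, hi⟩ : ∃ i, i ∈ S := Finset.card_pos.1 (by rw [hS]; norm_num)
          obtain ⟨j, hj⟩ : ∃ j, j ∈ S.erase i := by
            apply Finset.card_pos.1
            rw [Finset.card_erase_of_mem hi, hS]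
            norm_num
          rw [Finset.mem_erase] at hj
          rcases hpts i hi j hj.2 hj.1.symm with ⟨h1, -⟩ | ⟨-, h1, -⟩
          · exact absurd h1 hf0
          · exact h1
        · by_cases hij : i = j
          · rw [hij, sub_self]
            exact dvd_zero _
          · rcases hpts j hj i hi (fun h => hij h.symm) with ⟨h1, -⟩ | ⟨-, -, h1 | h1⟩
            · exact absurd h1 hf0
            · exact absurd h1 h4
            · exact h1
        · rcases htri i hi j hj l hl hij hil hjl with ⟨h1, -⟩ | ⟨-, -, h1 | h1⟩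
          · exact absurd h1 hf0
          · exact absurd h1 h4
          · exact h1
  · unfold NotExc at hne
    rw [not_not] at hne
    obtain ⟨h1, h2⟩ := hne
    have h3 : 1 ≤ f := by
      unfold SH.kk at h2
      have h4 : ∑ i ∈ S, (w i : ℤ) ≤ ∑ i, (w i : ℤ) :=
        Finset.sum_le_sum_of_subset_of_nonneg (Finset.subset_univ S)
          fun i _ _ => Int.natCast_nonneg _
      rw [hf]
      linarith
    right
    rw [h1]
    rcases Int.le_iff_eq_or_lt.1 h3 with h4 | h4
    · right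
      rw [← h4]
      exact ⟨by norm_num, fun _ _ _ _ => one_dvd _, fun _ _ _ _ _ _ _ _ _ => one_dvd _⟩
    · left
      nlinarith

end Pool.Agent.Results.MP_309968_ag.NinePoints
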