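import Pool.Agent.X157.W.Root
import Pool.Agent.TH167.SH.Fam
import Pool.Agent.TH167.SH.Conv

set_option autoImplicit false

/-!
# Negative curves: gaps for all real roots of the Weyl group

Let `P 1, …, P s` be very general points of the complex projective plane and let `C` be an
irreducible curve with `C ^ 2 = - k < 0`. For every real root `α` of the Weyl group of the blow-up
(`E i - E j`, `H - E i - E j - E l` and all their images under the Weyl group) the number `C α` is
zero, or at least `√k` in absolute value. For the roots `E i - E j` this is the starting result
`SeparatedMultiplicities`; for `H - E i - E j - E l` it says that the degree is equal to the sum of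
the multiplicities at any three points, or differs from it by at least `√k`.

The classes of the irreducible curves which are not `(-1)`-curves are permuted by the Weyl group
(the quadratic transformation carries `C` to a curve at other generic points, and an automorphism
of the complex numbers carries these points back to the `P i`). So `C` and its image under the
reflection in `α` are two irreducible curves on the same surface, of different classes if `C α` is
not zero, and their intersection number is `C ^ 2 + (C α) ^ 2`.
-/

namespace Pool.Agent.Results.MP_309968_ag.RootGaps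

open MvPolynomial Pool.Agent.TH167 Pool.Agent.TH167.SHDefs Pool.Agent.X157.W

theorem result (s : ℕ) :
    ∃ Z : ℕ → MvPolynomial (Fin s × Fin 2) ℂ, (∀ n, Z n ≠ 0) ∧
      ∀ P : Fin s → Fin 2 → ℂ,
        (∀ n, MvPolynomial.eval (fun ij : Fin s × Fin 2 => P ij.1 ij.2) (Z n) ≠ 0) →
        ∀ (d : ℕ) (w : Fin s → ℕ) (C : MvPolynomial (Fin 3) ℂ), Curve P C d w →
          inter d w d w < 0 →
          ∀ (a : ℤ) (b : Fin s → ℤ), Root a b →
            a * d - ∑ i, b i * w i = 0 ∨
              -inter d w d w ≤ (a * d - ∑ i, b i * w i) ^ 2 := by
  obtain ⟨Z, hZ, h⟩ := SH.exists_fam (Fin s × Fin 2)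
  refine ⟨Z, hZ, fun P hP0 d w C hC hneg a b hab => ?_⟩
  have hP : Gen P := (h _).1 hP0
  have hIc : Ic P d w := ⟨C, SH.curve_iff.1 hC⟩
  rw [SH.inter_eq] at hneg ⊢
  by_cases hne : NotExc d w
  · rcases root_gap hP hab d w hIc hne with h1 | h1
    · exact Or.inl h1
    · right
      have h2 : pr a b d w = a * d - ∑ i, b i * w i := rfl
      rw [h2] at h1
      linarith
  · unfold NotExc at hne
    rw [not_not] at hne
    by_cases h0 : a * d - ∑ i, b i * w i = 0
    · exact Or.inl h0
    · right
      rw [hne.1]
      have h1 : 0 < (a * (d : ℤ) - ∑ i, b i * (w i : ℤ)) ^ 2 := by positivity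
      linarith

end Pool.Agent.Results.MP_309968_ag.RootGaps
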